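import Pool.Agent.Q289.OP.Stm2

/-!
# JOB RIE: Riemann sums over the cells
-/

set_option autoImplicit false

namespace Pool.Agent.Q262.OP.RIE

open MeasureTheory Set Filter Topology Q289.OP

noncomputable section

variable {ι : Type} [Fintype ι] [DecidableEq ι] [PartialOrder ι]

omit [DecidableEq ι] in
theorem meas_mono : MeasurableSet {x : ι → ℝ | Monotone x} := by
  have e : {x : ι → ℝ | Monotone x} = ⋂ i : ι, ⋂ j : ι, ⋂ _ : i ≤ j, {x : ι → ℝ | x i ≤ x j} := by
    ext x
    simp only [mem_ofPred_eq, mem_iInter]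
    exact ⟨fun h i j hij => h hij, fun h i j hij => h i j hij⟩
  rw [e]
  refine MeasurableSet.iInter fun i => MeasurableSet.iInter fun j => MeasurableSet.iInter fun _ => ?_
  exact measurableSet_le (measurable_pi_apply i) (measurable_pi_apply j)

/-- the part of a cell in the order cone -/
def Sc (A B : ℝ) (N : ℕ) (c : ι → Fin (N + 1)) : Set (ι → ℝ) :=
  {x | (∀ i, x i ∈ Ico (A + dl A B N * (c i : ℕ)) (A + dl A B N * ((c i : ℕ) + 1))) ∧ Monotone x}

omit [DecidableEq ι] in
theorem meas_Sc (A B : ℝ) (N : ℕ) (c : ι → Fin (N + 1)) : MeasurableSet (Sc A B N c) := by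
  have e : Sc A B N c = (⋂ i : ι, {x : ι → ℝ | x i ∈ Ico (A + dl A B N * (c i : ℕ))
      (A + dl A B N * ((c i : ℕ) + 1))}) ∩ {x | Monotone x} := by
    ext x
    simp only [Sc, mem_ofPred_eq, mem_inter_iff, mem_iInter]
  rw [e]
  exact (MeasurableSet.iInter fun i => (measurable_pi_apply i) measurableSet_Ico).inter meas_mono

theorem dl_pos {A B : ℝ} (h : A < B) (N : ℕ) : 0 < dl A B N := by
  unfold dl
  have : (0 : ℝ) < N + 1 := by positivity
  exact div_pos (by linarith) this

theorem dl_mul (A B : ℝ) (N : ℕ) : dl A B N * ((N : ℝ) + 1) = B - A := by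
  unfold dl
  have : (N : ℝ) + 1 ≠ 0 := by positivity
  field_simp

omit [Fintype ι] [DecidableEq ι] in
theorem mem_VS_iff {A B : ℝ} (h : A < B) (N : ℕ) (c : ι → Fin (N + 1)) (u : ι → ℝ) :
    u ∈ VS (fun i => (c i : ℕ)) ↔ pt A B N c u ∈ Sc A B N c := by
  have hd := dl_pos h N
  simp only [VS, Sc, pt, mem_ofPred_eq, mem_Ico]
  constructor
  · rintro ⟨h1, h2⟩
    refine ⟨fun i => ⟨?_, ?_⟩, fun i j hij => ?_⟩
    · have := (h1 i).1; nlinarith
    · have := (h1 i).2; nlinarith
    · have := h2 hij
      simp only [pt] at this ⊢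
      nlinarith
  · rintro ⟨h1, h2⟩
    refine ⟨fun i => ⟨?_, ?_⟩, fun i j hij => ?_⟩
    · by_contra hc
      push Not at hc
      have := (h1 i).1
      nlinarith
    · by_contra hc
      push Not at hc
      have := (h1 i).2
      nlinarith
    · have := h2 hij
      simp only [pt] at this ⊢
      by_contra hc
      push Not at hc
      nlinarith

omit [Fintype ι] [DecidableEq ι] in
theorem union_Sc {A B : ℝ} (h : A < B) (N : ℕ) :
    {x : ι → ℝ | (∀ i, x i ∈ Ico A B) ∧ Monotone x} = ⋃ c : ι → Fin (N + 1), Sc A B N c := by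
  have hd := dl_pos h N
  have hm := dl_mul A B N
  ext x
  simp only [mem_ofPred_eq, mem_iUnion, Sc, mem_Ico]
  constructor
  · rintro ⟨h1, h2⟩
    have h3 : ∀ i, ⌊(x i - A) / dl A B N⌋₊ < N + 1 := by
      intro i
      have h4 : (x i - A) / dl A B N < N + 1 := by
        rw [div_lt_iff₀ hd]
        have := (h1 i).2
        linarith
      have h5 : (0 : ℝ) ≤ (x i - A) / dl A B N := div_nonneg (by linarith [(h1 i).1]) hd.le
      rw [Nat.floor_lt h5]
      push_cast
      exact h4
    refine ⟨fun i => ⟨⌊(x i - A) / dl A B N⌋₊, h3 i⟩, fun i => ⟨?_, ?_⟩, h2⟩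
    · have h5 : (0 : ℝ) ≤ (x i - A) / dl A B N := div_nonneg (by linarith [(h1 i).1]) hd.le
      have h6 := Nat.floor_le h5
      rw [le_div_iff₀ hd] at h6
      simp only
      linarith
    · have h6 := Nat.lt_floor_add_one ((x i - A) / dl A B N)
      rw [div_lt_iff₀ hd] at h6
      simp only
      linarith
  · rintro ⟨c, h1, h2⟩
    refine ⟨fun i => ⟨?_, ?_⟩, h2⟩
    · have h3 := (h1 i).1
      have h4 : (0 : ℝ) ≤ ((c i : ℕ) : ℝ) := Nat.cast_nonneg _
      nlinarith
    · have h3 := (h1 i).2
      have h4 : (((c i : ℕ) : ℝ) + 1) ≤ N + 1 := by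
        have := (c i).2
        have h5 : (c i : ℕ) ≤ N := by omega
        have h6 : ((c i : ℕ) : ℝ) ≤ N := by exact_mod_cast h5
        linarith
      nlinarith

omit [Fintype ι] [DecidableEq ι] in
theorem disj_Sc {A B : ℝ} (h : A < B) (N : ℕ) :
    Pairwise (Function.onFun Disjoint fun c : ι → Fin (N + 1) => Sc A B N c) := by
  have hd := dl_pos h N
  intro c c' hcc
  rw [Function.onFun, Set.disjoint_left]
  rintro x ⟨h1, _⟩ ⟨h2, _⟩
  apply hcc
  funext i
  have e1 := h1 i
  have e2 := h2 i
  rw [mem_Ico] at e1 e2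
  have e3 : ((c i : ℕ) : ℝ) < (c' i : ℕ) + 1 := by
    have := lt_of_le_of_lt e1.1 e2.2
    by_contra hc
    push Not at hc
    nlinarith
  have e4 : ((c' i : ℕ) : ℝ) < (c i : ℕ) + 1 := by
    have := lt_of_le_of_lt e2.1 e1.2
    by_contra hc
    push Not at hc
    nlinarith
  have e5 : (c i : ℕ) < (c' i : ℕ) + 1 := by exact_mod_cast e3
  have e6 : (c' i : ℕ) < (c i : ℕ) + 1 := by exact_mod_cast e4
  apply Fin.ext
  omega

omit [DecidableEq ι] in
/-- change of variables -/
theorem change {A B : ℝ} (h : A < B) (N : ℕ) (c : ι → Fin (N + 1)) (F : (ι → ℝ) → ℝ) :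
    ∫ x in Sc A B N c, F x =
      dl A B N ^ Fintype.card ι * ∫ u in VS (fun i => (c i : ℕ)), F (pt A B N c u) := by
  have hd := dl_pos h N
  have hVS : MeasurableSet (VS (fun i => (c i : ℕ))) := by
    have e : VS (fun i => (c i : ℕ)) = (fun u : ι → ℝ => pt A B N c u) ⁻¹' Sc A B N c := by
      ext u
      exact mem_VS_iff h N c u
    have hc : Continuous (fun u : ι → ℝ => pt A B N c u) := by
      unfold pt
      fun_prop
    rw [e]
    exact hc.measurable (meas_Sc A B N c)
  rw [← integral_indicator (meas_Sc A B N c), ← integral_indicator hVS]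
  set v : ι → ℝ := fun i => A + dl A B N * (c i : ℕ) with hv
  have e1 : ∀ u, (VS (fun i => (c i : ℕ))).indicator (fun u => F (pt A B N c u)) u =
      (Sc A B N c).indicator F (v + dl A B N • u) := by
    intro u
    have e2 : v + dl A B N • u = pt A B N c u := by
      funext i
      simp only [hv, pt, Pi.add_apply, Pi.smul_apply, smul_eq_mul]
      ring
    rw [e2]
    by_cases hu : u ∈ VS (fun i => (c i : ℕ))
    · rw [indicator_of_mem hu, indicator_of_mem ((mem_VS_iff h N c u).1 hu)]
    · rw [indicator_of_notMem hu,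
        indicator_of_notMem (fun hc => hu ((mem_VS_iff h N c u).2 hc))]
  simp_rw [e1]
  have e3 := Measure.integral_comp_smul (μ := (volume : Measure (ι → ℝ)))
    (fun x => (Sc A B N c).indicator F (v + x)) (dl A B N)
  rw [e3, integral_add_left_eq_self (μ := (volume : Measure (ι → ℝ)))
    (fun x => (Sc A B N c).indicator F x) v]
  rw [Module.finrank_fintype_fun_eq_card, abs_of_pos (by positivity), smul_eq_mul, ← mul_assoc,
    mul_inv_cancel₀ (by positivity), one_mul]

omit [Fintype ι] [PartialOrder ι] in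
theorem prod_sub (s : Finset ι) (a b : ι → ℝ) (M η : ℝ) (hM : 1 ≤ M) (hη : 0 ≤ η)
    (ha : ∀ i, |a i| ≤ M) (hb : ∀ i, |b i| ≤ M) (hab : ∀ i, |a i - b i| ≤ η) :
    |∏ i ∈ s, a i - ∏ i ∈ s, b i| ≤ s.card * M ^ s.card * η := by
  induction s using Finset.induction_on with
  | empty => simp
  | insert i s hi ih =>
    rw [Finset.prod_insert hi, Finset.prod_insert hi, Finset.card_insert_of_notMem hi]
    have e : a i * ∏ j ∈ s, a j - b i * ∏ j ∈ s, b j =
        a i * (∏ j ∈ s, a j - ∏ j ∈ s, b j) + (a i - b i) * ∏ j ∈ s, b j := by ring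
    have hM0 : 0 ≤ M := by linarith
    have hp : |∏ j ∈ s, b j| ≤ M ^ s.card := by
      rw [Finset.abs_prod]
      calc ∏ j ∈ s, |b j| ≤ ∏ j ∈ s, M := Finset.prod_le_prod (fun _ _ => abs_nonneg _)
            (fun j _ => hb j)
        _ = M ^ s.card := by rw [Finset.prod_const]
    rw [e]
    calc |a i * (∏ j ∈ s, a j - ∏ j ∈ s, b j) + (a i - b i) * ∏ j ∈ s, b j| ≤
        |a i * (∏ j ∈ s, a j - ∏ j ∈ s, b j)| + |(a i - b i) * ∏ j ∈ s, b j| := abs_add_le _ _
      _ = |a i| * |∏ j ∈ s, a j - ∏ j ∈ s, b j| + |a i - b i| * |∏ j ∈ s, b j| := by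
          rw [abs_mul, abs_mul]
      _ ≤ M * (s.card * M ^ s.card * η) + η * M ^ s.card := by
          apply add_le_add
          · exact mul_le_mul (ha i) ih (abs_nonneg _) hM0
          · exact mul_le_mul (hab i) hp (abs_nonneg _) hη
      _ ≤ ((s.card + 1 : ℕ) : ℝ) * M ^ (s.card + 1) * η := by
          have h1 : M ^ s.card ≤ M ^ (s.card + 1) := pow_le_pow_right₀ hM (Nat.le_succ _)
          have h2 : M * M ^ s.card = M ^ (s.card + 1) := by rw [pow_succ]; ring
          push_cast
          have h3 : η * M ^ s.card ≤ η * M ^ (s.card + 1) := mul_le_mul_of_nonneg_left h1 hη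
          calc M * (s.card * M ^ s.card * η) + η * M ^ s.card =
              s.card * (M * M ^ s.card) * η + η * M ^ s.card := by ring
            _ ≤ s.card * M ^ (s.card + 1) * η + η * M ^ (s.card + 1) := by rw [h2]; linarith
            _ = _ := by ring

omit [DecidableEq ι] in
theorem vol_VS (c : ι → ℕ) : (volume (VS c)) ≤ 1 := by
  have h1 : VS c ⊆ Set.pi univ (fun _ : ι => Ico (0 : ℝ) 1) := by
    intro u hu i _
    exact hu.1 i
  refine (measure_mono h1).trans ?_
  rw [Real.volume_pi_Ico]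
  simp

theorem t : S_RIE := by
  intro ι _ _ _ φ A B hg g hgc
  rw [Metric.tendsto_atTop]
  intro ε hε
  -- bounds
  obtain ⟨M0, hM0⟩ := (isCompact_Icc (a := A) (b := B)).exists_bound_of_continuousOn hg.cont
  set M : ℝ := max M0 1 with hM
  have hM1 : 1 ≤ M := le_max_right _ _
  have hMb : ∀ x ∈ Icc A B, |φ x| ≤ M := fun x hx => (hM0 x hx).trans (le_max_left _ _)
  have hbox : IsCompact (Set.pi univ (fun _ : ι => Icc A B)) :=
    isCompact_univ_pi fun _ => isCompact_Icc
  obtain ⟨G0, hG0⟩ := hbox.exists_bound_of_continuousOn hgc.continuousOn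
  set G : ℝ := max G0 0 with hG
  have hGn : 0 ≤ G := le_max_right _ _
  have hGb : ∀ x ∈ Set.pi univ (fun _ : ι => Icc A B), |g x| ≤ G :=
    fun x hx => (hG0 x hx).trans (le_max_left _ _)
  set n := Fintype.card ι with hn
  set K : ℝ := (B - A) ^ n * (G * (n * M ^ n)) with hK
  have hBA : 0 < B - A := by linarith [hg.lt]
  have hK0 : 0 ≤ K := by positivity
  set η : ℝ := ε / (K + 1) with hη
  have hη0 : 0 < η := by positivity
  have hKη : K * η < ε := by
    rw [hη, mul_div_assoc', div_lt_iff₀ (by positivity)]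
    nlinarith
  -- uniform continuity
  have huc := isCompact_Icc.uniformContinuousOn_of_continuous hg.cont
  rw [Metric.uniformContinuousOn_iff] at huc
  obtain ⟨d, hd0, hd⟩ := huc η hη0
  obtain ⟨N0, hN0⟩ := exists_nat_gt ((B - A) / d)
  refine ⟨N0, fun N hN => ?_⟩
  have hδ := dl_pos hg.lt N
  set δ := dl A B N with hδd
  have hδd' : δ < d := by
    have h1 : (N0 : ℝ) ≤ N := by exact_mod_cast hN
    have h2 : (B - A) / d < N + 1 := by linarith
    rw [div_lt_iff₀ hd0] at h2
    rw [hδd]
    unfold dl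
    rw [div_lt_iff₀ (by positivity)]
    linarith
  -- points of a cell
  have hcell : ∀ b : Fin (N + 1), ∀ x, A + δ * (b : ℕ) ≤ x → x ≤ A + δ * ((b : ℕ) + 1) →
      x ∈ Icc A B := by
    intro b x h1 h2
    have h3 : (0 : ℝ) ≤ ((b : ℕ) : ℝ) := Nat.cast_nonneg _
    have h4 : (((b : ℕ) : ℝ) + 1) ≤ N + 1 := by
      have h5 : (b : ℕ) ≤ N := by have := b.2; omega
      have h6 : ((b : ℕ) : ℝ) ≤ N := by exact_mod_cast h5
      linarith
    have hm := dl_mul A B N
    rw [← hδd] at hm
    constructor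
    · nlinarith
    · nlinarith
  -- averages over cells
  have hqq : ∀ b : Fin (N + 1), ∀ y ∈ Ico (A + δ * (b : ℕ)) (A + δ * ((b : ℕ) + 1)),
      |qq φ A B N b / δ - φ y| ≤ η := by
    intro b y hy
    have hI : IntegrableOn φ (Ico (A + δ * (b : ℕ)) (A + δ * ((b : ℕ) + 1))) := by
      apply (hg.cont.integrableOn_Icc).mono_set
      intro x hx
      exact hcell b x hx.1 hx.2.le
    have hvol : volume.real (Ico (A + δ * (b : ℕ)) (A + δ * ((b : ℕ) + 1))) = δ := by
      rw [measureReal_def, Real.volume_Ico, ENNReal.toReal_ofReal (by nlinarith)]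
      ring
    have e1 : qq φ A B N b - δ * φ y =
        ∫ x in Ico (A + δ * (b : ℕ)) (A + δ * ((b : ℕ) + 1)), (φ x - φ y) := by
      rw [integral_sub hI (integrableOn_const (by simp))]
      rw [setIntegral_const, hvol]
      simp only [qq, smul_eq_mul, ← hδd]
    have e2 : |qq φ A B N b - δ * φ y| ≤ η * δ := by
      rw [e1, ← Real.norm_eq_abs]
      have := norm_setIntegral_le_of_norm_le_const (μ := volume)
        (s := Ico (A + δ * (b : ℕ)) (A + δ * ((b : ℕ) + 1))) (f := fun x => φ x - φ y) (C := η)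
        (by simp) (fun x hx => by
          have h1 := hd x (hcell b x hx.1 hx.2.le) y (hcell b y hy.1 hy.2.le) (by
            rw [Real.dist_eq]
            have h2 := hx.1
            have h3 := hx.2
            have h4 := hy.1
            have h5 := hy.2
            rw [abs_lt]
            constructor <;> nlinarith)
          rw [Real.dist_eq] at h1
          exact h1.le)
      rwa [hvol] at this
    have e3 : qq φ A B N b / δ - φ y = (qq φ A B N b - δ * φ y) / δ := by
      field_simp
    rw [e3, abs_div, abs_of_pos hδ, div_le_iff₀ hδ]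
    exact e2
  have hqM : ∀ b : Fin (N + 1), |qq φ A B N b / δ| ≤ M := by
    intro b
    have hI : volume.real (Ico (A + δ * (b : ℕ)) (A + δ * ((b : ℕ) + 1))) = δ := by
      rw [measureReal_def, Real.volume_Ico, ENNReal.toReal_ofReal (by nlinarith)]
      ring
    rw [abs_div, abs_of_pos hδ, div_le_iff₀ hδ]
    have := norm_setIntegral_le_of_norm_le_const (μ := volume)
        (s := Ico (A + δ * (b : ℕ)) (A + δ * ((b : ℕ) + 1))) (f := fun x => φ x) (C := M)
        (by simp) (fun x hx => hMb x (hcell b x hx.1 hx.2.le))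
    rw [hI] at this
    exact this
  -- the function
  set Fn : (ι → ℝ) → ℝ := fun x => g x * ∏ i, φ (x i) with hFn
  have hFc : ContinuousOn Fn (Set.pi univ (fun _ : ι => Icc A B)) := by
    apply hgc.continuousOn.mul
    apply continuousOn_finsetProd
    intro i _
    apply hg.cont.comp (continuous_apply i).continuousOn
    intro x hx
    exact hx i (mem_univ i)
  have hFI : IntegrableOn Fn (Set.pi univ (fun _ : ι => Icc A B)) :=
    hFc.integrableOn_compact hbox
  have hScsub : ∀ c : ι → Fin (N + 1), Sc A B N c ⊆ Set.pi univ (fun _ : ι => Icc A B) := by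
    intro c x hx i _
    have := hx.1 i
    exact hcell (c i) (x i) this.1 this.2.le
  have hIA : IA φ A B g = ∑ c : ι → Fin (N + 1), ∫ x in Sc A B N c, Fn x := by
    unfold IA
    rw [union_Sc hg.lt N]
    exact integral_iUnion_fintype (fun c => meas_Sc A B N c) (disj_Sc hg.lt N)
      (fun c => hFI.mono_set (hScsub c))
  rw [Real.dist_eq, hIA]
  unfold IN
  rw [← Finset.sum_sub_distrib]
  have hterm : ∀ c : ι → Fin (N + 1),
      |(∏ i, qq φ A B N (c i)) * (∫ u in VS (fun i => (c i : ℕ)), g (pt A B N c u)) -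
        ∫ x in Sc A B N c, Fn x| ≤ δ ^ n * (G * (n * M ^ n * η)) := by
    intro c
    have hVSm : MeasurableSet (VS (fun i => (c i : ℕ))) := by
      have e : VS (fun i => (c i : ℕ)) = (fun u : ι → ℝ => pt A B N c u) ⁻¹' Sc A B N c := by
        ext u
        exact mem_VS_iff hg.lt N c u
      have hc : Continuous (fun u : ι → ℝ => pt A B N c u) := by
        unfold pt
        fun_prop
      rw [e]
      exact hc.measurable (meas_Sc A B N c)
    have hptc : Continuous (fun u : ι → ℝ => pt A B N c u) := by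
      unfold pt
      fun_prop
    have hpt : ∀ u ∈ VS (fun i => (c i : ℕ)), pt A B N c u ∈ Sc A B N c :=
      fun u hu => (mem_VS_iff hg.lt N c u).1 hu
    have hvf : volume (VS (fun i => (c i : ℕ))) < ⊤ :=
      lt_of_le_of_lt (vol_VS _) ENNReal.one_lt_top
    have hvr : volume.real (VS (fun i => (c i : ℕ))) ≤ 1 := by
      rw [measureReal_def]
      exact ENNReal.toReal_le_of_le_ofReal zero_le_one (by simpa using vol_VS _)
    have hprod : ∏ i, qq φ A B N (c i) = δ ^ n * ∏ i, (qq φ A B N (c i) / δ) := by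
      rw [Finset.prod_div_distrib, Finset.prod_const, Finset.card_univ, ← hn]
      field_simp
    rw [change hg.lt N c Fn, hprod, ← hδd, ← hn, mul_assoc, ← mul_sub, abs_mul,
      abs_of_pos (pow_pos hδ n)]
    apply mul_le_mul_of_nonneg_left _ (pow_pos hδ n).le
    have hi1 : IntegrableOn (fun u => (∏ i, (qq φ A B N (c i) / δ)) * g (pt A B N c u))
        (VS (fun i => (c i : ℕ))) := by
      apply IntegrableOn.of_bound hvf _ (|∏ i, (qq φ A B N (c i) / δ)| * G)
      swap
      · exact (continuous_const.mul (hgc.comp hptc)).aestronglyMeasurable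
      · rw [ae_restrict_iff' hVSm]
        refine Eventually.of_forall fun u hu => ?_
        rw [Real.norm_eq_abs, abs_mul]
        exact mul_le_mul_of_nonneg_left (hGb _ (hScsub c (hpt u hu))) (abs_nonneg _)
    have hi2 : IntegrableOn (fun u => Fn (pt A B N c u)) (VS (fun i => (c i : ℕ))) := by
      obtain ⟨C, hC⟩ := hbox.exists_bound_of_continuousOn hFc
      apply IntegrableOn.of_bound hvf _ C
      swap
      · apply ContinuousOn.aestronglyMeasurable _ hVSm
        exact hFc.comp hptc.continuousOn (fun u hu => hScsub c (hpt u hu))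
      · rw [ae_restrict_iff' hVSm]
        exact Eventually.of_forall fun u hu => hC _ (hScsub c (hpt u hu))
    have e1 : (∏ i, (qq φ A B N (c i) / δ)) * (∫ u in VS (fun i => (c i : ℕ)), g (pt A B N c u)) -
        ∫ u in VS (fun i => (c i : ℕ)), Fn (pt A B N c u) =
        ∫ u in VS (fun i => (c i : ℕ)),
          ((∏ i, (qq φ A B N (c i) / δ)) * g (pt A B N c u) - Fn (pt A B N c u)) := by
      rw [integral_sub hi1 hi2, integral_const_mul]
    rw [e1, ← Real.norm_eq_abs]
    have hb : ∀ u ∈ VS (fun i => (c i : ℕ)),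
        ‖(∏ i, (qq φ A B N (c i) / δ)) * g (pt A B N c u) - Fn (pt A B N c u)‖ ≤
          G * (n * M ^ n * η) := by
      intro u hu
      have hs := hpt u hu
      have e2 : (∏ i, (qq φ A B N (c i) / δ)) * g (pt A B N c u) - Fn (pt A B N c u) =
          g (pt A B N c u) * (∏ i, (qq φ A B N (c i) / δ) - ∏ i, φ (pt A B N c u i)) := by
        rw [hFn]
        ring
      rw [e2, Real.norm_eq_abs, abs_mul]
      apply mul_le_mul (hGb _ (hScsub c hs)) _ (abs_nonneg _) hGn
      have := prod_sub Finset.univ (fun i => qq φ A B N (c i) / δ) (fun i => φ (pt A B N c u i))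
        M η hM1 hη0.le (fun i => hqM (c i))
        (fun i => hMb _ (hScsub c hs i (mem_univ i))) (fun i => hqq (c i) _ (hs.1 i))
      rw [Finset.card_univ] at this
      exact this
    refine (norm_setIntegral_le_of_norm_le_const hvf hb).trans ?_
    have : 0 ≤ G * (n * M ^ n * η) := by positivity
    nlinarith
  calc |∑ c : ι → Fin (N + 1), ((∏ i, qq φ A B N (c i)) *
        (∫ u in VS (fun i => (c i : ℕ)), g (pt A B N c u)) - ∫ x in Sc A B N c, Fn x)| ≤
      ∑ c : ι → Fin (N + 1), |(∏ i, qq φ A B N (c i)) *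
        (∫ u in VS (fun i => (c i : ℕ)), g (pt A B N c u)) - ∫ x in Sc A B N c, Fn x| :=
        Finset.abs_sum_le_sum_abs _ _
    _ ≤ ∑ c : ι → Fin (N + 1), δ ^ n * (G * (n * M ^ n * η)) :=
        Finset.sum_le_sum fun c _ => hterm c
    _ = ((N : ℝ) + 1) ^ n * (δ ^ n * (G * (n * M ^ n * η))) := by
        rw [Finset.sum_const, nsmul_eq_mul, Finset.card_univ, Fintype.card_fun, Fintype.card_fin]
        push_cast
        rw [← hn]
    _ = K * η := by
        have hm := dl_mul A B N
        rw [← hδd] at hm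
        rw [hK, ← hm, mul_pow]
        ring
    _ < ε := hKη

end

end Pool.Agent.Q262.OP.RIE
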